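import Pool.Agent.Lib.MP_9b0fed_al.Main

open Pool.Agent.MP_9b0fed_al

namespace Pool.Agent.Results.MP_9b0fed_al.CoChordBound

/-- Q1, in full: for every finite simple graph `G` with at least one edge, every field `k` and
every `q ≥ 1`: `reg I(G)^q ≤ 2 q + co-chord(G) - 1`. The first part says that
`Tor_i(I(G)^q, k)_j ≠ 0` implies `j - i ≤ 2 q + co-chord(G) - 1` (so the maximum in the
definition of the regularity is taken over a bounded set). -/
theorem result {k : Type*} [Field k] {n : ℕ} (G : SimpleGraph (Fin n)) (hG : ∃ u v, G.Adj u v)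
    (q : ℕ) (hq : 1 ≤ q) :
    (∀ i j : ℕ, Nontrivial (KTor (edgeIdeal k G ^ q) i j) →
      (j : ℤ) - i ≤ 2 * q + coChord G - 1) ∧
    reg (edgeIdeal k G ^ q) ≤ 2 * q + coChord G - 1 := by
  obtain ⟨u, v, huv⟩ := hG
  have h := main_bound (k := k) G u v huv q hq
  refine ⟨h, ?_⟩
  have h1 := one_le_coChord G u v huv
  unfold reg
  rcases Set.eq_empty_or_nonempty
    {d : ℤ | ∃ i j : ℕ, Nontrivial (KTor (edgeIdeal k G ^ q) i j) ∧ d = (j : ℤ) - i} with he | hne
  · rw [he, Int.csSup_empty]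
    omega
  · refine csSup_le hne ?_
    rintro d ⟨i, j, hij, rfl⟩
    exact h i j hij

end Pool.Agent.Results.MP_9b0fed_al.CoChordBound
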